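import Mathlib

set_option autoImplicit false
open Projectivization Filter Topology Matrix

namespace Pool.Agent.Results.MP_5e7574_co.Cex

abbrev PG (p : ℕ) [Fact p.Prime] : Type := Projectivization (ZMod p) (Fin 3 → ZMod p)

noncomputable def inj (p : ℕ) [Fact p.Prime] {A B : Type} (E : A → B → Prop) : ℕ :=
  Nat.card {f : (A → PG p) × (B → PG p) // Function.Injective f.1 ∧ Function.Injective f.2 ∧
    ∀ a b, E a b → (f.1 a).orthogonal (f.2 b)}

noncomputable def logInj (p : Nat.Primes) {A B : Type} (E : A → B → Prop) : EReal :=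
  haveI := Fact.mk p.2
  if inj p E = 0 then ⊥ else (Real.logb p.1 (inj p E) : ℝ)

private def E (a b : Fin 8) : Prop := a = b ∨ a = b + 1 ∨ a = b + 3

private instance : DecidableRel E := fun _ _ => by unfold E; infer_instance

section
variable {K : Type} [Field K]

private def dt (x y z : Fin 3 → K) : K :=
  x 0 * (y 1 * z 2 - y 2 * z 1) - x 1 * (y 0 * z 2 - y 2 * z 0) + x 2 * (y 0 * z 1 - y 1 * z 0)

private theorem ort (x l : Projectivization K (Fin 3 → K)) :
    x.orthogonal l ↔ x.rep 0 * l.rep 0 + x.rep 1 * l.rep 1 + x.rep 2 * l.rep 2 = 0 := by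
  conv_lhs => rw [← x.mk_rep, ← l.mk_rep, orthogonal_mk]
  simp [dotProduct, Fin.sum_univ_three]

private theorem z0 {x y z l : Projectivization K (Fin 3 → K)} (h1 : x.orthogonal l)
    (h2 : y.orthogonal l) (h3 : z.orthogonal l) : dt x.rep y.rep z.rep = 0 := by
  rw [ort] at h1 h2 h3
  by_contra h
  refine l.rep_nonzero (funext fun i => mul_left_cancel₀ h ?_)
  unfold dt
  fin_cases i <;> simp only [Fin.zero_eta, Fin.mk_one, Fin.reduceFinMk, Pi.zero_apply] <;> grind

private theorem n0 {x y z l m : Projectivization K (Fin 3 → K)} (a : x ≠ y) (b : x ≠ z) (c : l ≠ m)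
    (h1 : x.orthogonal l) (h2 : y.orthogonal l) (h3 : x.orthogonal m) (h4 : z.orthogonal m) :
    dt x.rep y.rep z.rep ≠ 0 := by
  intro h
  have n : x.rep ⨯₃ y.rep ≠ 0 := fun e => a (by
    rw [← x.mk_rep, ← y.mk_rep]
    exact (mk_eq_mk_iff_crossProduct_eq_zero _ _).2 e)
  have A : ∀ u : Projectivization K (Fin 3 → K), dt x.rep y.rep u.rep = 0 →
      u.orthogonal (mk K _ n) := fun u e => by
    rw [← u.mk_rep, orthogonal_mk]
    simp only [dotProduct, Fin.sum_univ_three, cross_apply, cons_val]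
    unfold dt at e
    linear_combination e
  have a1 := A x (by unfold dt; ring)
  exact c (((Configuration.ofField.eq_or_eq_of_orthogonal h1 h2 a1
    (A y (by unfold dt; ring))).resolve_left a).trans
    ((Configuration.ofField.eq_or_eq_of_orthogonal h3 h4 a1 (A z h)).resolve_left b).symm)

private theorem chg (u v w x y z : Fin 3 → K) :
    dt ![dt x v w, dt u x w, dt u v x] ![dt y v w, dt u y w, dt u v y]
      ![dt z v w, dt u z w, dt u v z] = dt u v w ^ 2 * dt x y z := by
  simp only [dt, cons_val]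
  ring

private theorem root (P L : Fin 8 → Projectivization K (Fin 3 → K)) (hP : Function.Injective P)
    (hL : Function.Injective L) (h : ∀ a b, E a b → (P a).orthogonal (L b)) :
    ∃ x : K, x ^ 2 + x + 1 = 0 := by
  have Z : ∀ a b c l, E a l → E b l → E c l → dt (P a).rep (P b).rep (P c).rep = 0 :=
    fun a b c l x y z => z0 (h _ _ x) (h _ _ y) (h _ _ z)
  have N : ∀ a b c l m, a ≠ b → a ≠ c → l ≠ m → E a l → E b l → E a m → E c m →
      dt (P a).rep (P b).rep (P c).rep ≠ 0 := fun a b c l m x y z s t u v =>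
    n0 (hP.ne x) (hP.ne y) (hL.ne z) (h _ _ s) (h _ _ t) (h _ _ u) (h _ _ v)
  have nD := N 0 1 2 0 7 (by decide) (by decide) (by decide) (by decide) (by decide) (by decide)
    (by decide)
  have nb := N 0 3 2 0 7 (by decide) (by decide) (by decide) (by decide) (by decide) (by decide)
    (by decide)
  have nq := N 0 5 2 5 7 (by decide) (by decide) (by decide) (by decide) (by decide) (by decide)
    (by decide)
  have nd := N 1 4 0 1 0 (by decide) (by decide) (by decide) (by decide) (by decide) (by decide)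
    (by decide)
  have ne := N 2 7 1 7 1 (by decide) (by decide) (by decide) (by decide) (by decide) (by decide)
    (by decide)
  have nr := N 1 2 6 1 6 (by decide) (by decide) (by decide) (by decide) (by decide) (by decide)
    (by decide)
  have z1 := Z 0 1 3 0 (by decide) (by decide) (by decide)
  have z2 := Z 4 1 2 1 (by decide) (by decide) (by decide)
  have z3 := Z 0 7 2 7 (by decide) (by decide) (by decide)
  have y1 := chg (P 0).rep (P 1).rep (P 2).rep (P 2).rep (P 3).rep (P 5).rep
  have y2 := chg (P 0).rep (P 1).rep (P 2).rep (P 1).rep (P 6).rep (P 7).rep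
  have y3 := chg (P 0).rep (P 1).rep (P 2).rep (P 4).rep (P 5).rep (P 7).rep
  have y4 := chg (P 0).rep (P 1).rep (P 2).rep (P 3).rep (P 4).rep (P 6).rep
  have y5 := chg (P 0).rep (P 1).rep (P 2).rep (P 0).rep (P 5).rep (P 6).rep
  rw [Z 2 3 5 2 (by decide) (by decide) (by decide)] at y1
  rw [Z 1 6 7 6 (by decide) (by decide) (by decide)] at y2
  rw [Z 4 5 7 4 (by decide) (by decide) (by decide)] at y3
  rw [Z 3 4 6 3 (by decide) (by decide) (by decide)] at y4
  rw [Z 0 5 6 5 (by decide) (by decide) (by decide)] at y5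
  have c1 : ∀ x y z : Fin 3 → K, dt y z x = dt x y z := fun x y z => by unfold dt; ring
  have c2 : ∀ x y : Fin 3 → K, dt x x y = 0 ∧ dt x y x = 0 ∧ dt y x x = 0 := fun x y => by
    unfold dt; refine ⟨?_, ?_, ?_⟩ <;> ring
  rw [c1] at nd nr
  rw [← c1] at ne
  simp only [c2, z1, z2, z3, mul_zero] at y1 y2 y3 y4 y5
  generalize dt (P 0).rep (P 1).rep (P 2).rep = D at *
  generalize dt (P 3).rep (P 1).rep (P 2).rep = a at *
  generalize dt (P 0).rep (P 3).rep (P 2).rep = b at *
  generalize dt (P 0).rep (P 4).rep (P 2).rep = c at *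
  generalize dt (P 0).rep (P 1).rep (P 4).rep = d at *
  generalize dt (P 7).rep (P 1).rep (P 2).rep = e at *
  generalize dt (P 0).rep (P 1).rep (P 7).rep = f at *
  generalize dt (P 5).rep (P 1).rep (P 2).rep = p at *
  generalize dt (P 0).rep (P 5).rep (P 2).rep = q at *
  generalize dt (P 0).rep (P 1).rep (P 5).rep = g at *
  generalize dt (P 6).rep (P 1).rep (P 2).rep = r at *
  generalize dt (P 0).rep (P 6).rep (P 2).rep = l at *
  generalize dt (P 0).rep (P 1).rep (P 6).rep = s at *
  simp only [dt, cons_val] at y1 y2 y3 y4 y5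
  have k1 : a * q = b * p := mul_left_cancel₀ nD (by linear_combination y1)
  have k2 : r * f = s * e := mul_left_cancel₀ nD (by linear_combination -y2)
  have k5 : q * s = g * l := mul_left_cancel₀ nD (by linear_combination y5)
  have k3 : b * c * e * g = q * (a * c * f + b * d * e) := by linear_combination b * y3 - c * f * k1
  have k4 : a * d * e * l = r * (a * c * f + b * d * e) := by linear_combination -e * y4 - a * c * k2
  refine ⟨a * c * f / (b * d * e), ?_⟩
  have : q * r * ((a * c * f) ^ 2 + a * c * f * (b * d * e) + (b * d * e) ^ 2) = 0 := by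
    linear_combination -(r * (a * c * f + b * d * e)) * k3 - b * c * e * g * k4 -
      a * b * c * d * e * e * k5 - a * b * c * d * e * q * k2
  have := (mul_eq_zero.1 this).resolve_left (mul_ne_zero nq nr)
  field_simp
  linear_combination this

private theorem real (w : K) (h : w ^ 2 + w + 1 = 0) :
    ∃ P L : Fin 8 → Projectivization K (Fin 3 → K), ∀ a b, E a b ↔ (P a).orthogonal (L b) := by
  let x : Fin 8 → Fin 3 → K := ![![1, 0, 0], ![0, 1, 0], ![0, 0, 1], ![1, 1, 0], ![0, 1, 1],
    ![1, 1, 1 + w], ![1, 1 + w, w], ![1, 0, w]]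
  let y : Fin 8 → Fin 3 → K := ![![0, 0, 1], ![1, 0, 0], ![1, -1, 0], ![1, -1, 1], ![w, 1, -1],
    ![0, 1 + w, -1], ![w, 0, -1], ![0, 1, 0]]
  have hx : ∀ i, x i ≠ 0 := fun i => by fin_cases i <;> simp [x]
  have hy : ∀ i, y i ≠ 0 := fun i => by fin_cases i <;> simp [y]
  refine ⟨fun i => mk K _ (hx i), fun i => mk K _ (hy i), fun a b => ?_⟩
  rw [orthogonal_mk]
  fin_cases a <;> fin_cases b <;> simp [E, x, y] <;> grind

end

theorem result : ∃ (A B : Type) (_ : Fintype A) (_ : Fintype B) (E : A → B → Prop),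
    (∃ a b, E a b) ∧ ¬ ∃ L : EReal,
      Tendsto (fun p : Nat.Primes => logInj p E) (comap (fun p => p.1) atTop) (𝓝 L) := by
  refine ⟨Fin 8, Fin 8, inferInstance, inferInstance, E, ⟨0, 0, .inl rfl⟩, fun ⟨L, hL⟩ => ?_⟩
  have h1 : L ∈ ({⊥} : Set EReal) := by
    refine isClosed_singleton.mem_of_frequently_of_tendsto
      (frequently_comap.2 (frequently_atTop.2 fun n => ?_)) hL
    obtain ⟨p, p1, p2, p3⟩ := Nat.forall_exists_prime_gt_and_modEq n (q := 3) (a := 2) (by norm_num)
      (by norm_num)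
    refine ⟨p, p1.le, ⟨p, p2⟩, rfl, if_pos ?_⟩
    have := Fact.mk p2
    refine Nat.card_eq_zero.2 (.inl ⟨fun ⟨⟨P, L⟩, a, b, c⟩ => ?_⟩)
    obtain ⟨x, hx⟩ := root P L a b c
    have e : x ^ 3 = 1 := by linear_combination (x - 1) * hx
    have x0 : x ≠ 0 := by rintro rfl; simp at hx
    have f := ZMod.pow_card_sub_one_eq_one x0
    unfold Nat.ModEq at p3
    rw [show p - 1 = 3 * (p / 3) + 1 by omega, pow_succ, pow_mul, e, one_pow, one_mul] at f
    rw [f] at hx
    have : p ∣ 3 := (ZMod.natCast_eq_zero_iff 3 p).1 (by push_cast; linear_combination hx)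
    have := (Nat.prime_dvd_prime_iff_eq p2 Nat.prime_three).1 this
    omega
  have h2 : L ∈ Set.Ici (0 : EReal) := by
    refine isClosed_Ici.mem_of_frequently_of_tendsto
      (frequently_comap.2 (frequently_atTop.2 fun n => ?_)) hL
    obtain ⟨p, p1, p2, p3⟩ := Nat.forall_exists_prime_gt_and_modEq n (q := 3) (a := 1) (by norm_num)
      (by norm_num)
    refine ⟨p, p1.le, ⟨p, p2⟩, rfl, ?_⟩
    have := Fact.mk p2
    have := Fact.mk Nat.prime_three
    obtain ⟨u, hu⟩ := exists_prime_orderOf_dvd_card (G := (ZMod p)ˣ) 3 (by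
      rw [ZMod.card_units]
      unfold Nat.ModEq at p3
      omega)
    have e : (u : ZMod p) ^ 3 = 1 := by rw [← Units.val_pow_eq_pow_val, ← hu, pow_orderOf_eq_one]; rfl
    have f : (u : ZMod p) - 1 ≠ 0 := fun k => by
      rw [Units.val_eq_one.1 (sub_eq_zero.1 k)] at hu
      simp at hu
    obtain ⟨P, L, k⟩ := real (u : ZMod p) (mul_left_cancel₀ f (by linear_combination e))
    have : Finite (PG p) := Quotient.finite _
    have n : inj p E ≠ 0 := Nat.card_ne_zero.2 ⟨⟨⟨(P, L), fun a b e =>
      (show ∀ a b, (∀ c, E a c ↔ E b c) → a = b by decide) a b fun c => by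
        rw [k, k, show P a = P b from e], fun a b e =>
      (show ∀ a b, (∀ c, E c a ↔ E c b) → a = b by decide) a b fun c => by
        rw [k, k, show L a = L b from e], fun a b => (k a b).1⟩⟩, inferInstance⟩
    simp only [logInj, Set.mem_Ici]
    rw [if_neg n]
    exact EReal.coe_nonneg.2 (Real.logb_nonneg (Nat.one_lt_cast.2 p2.one_lt)
      (Nat.one_le_cast.2 (Nat.pos_of_ne_zero n)))
  rw [h1] at h2
  simp at h2

end Pool.Agent.Results.MP_5e7574_co.Cex
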